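import Pool.Agent.Helper31.TW.St2

set_option autoImplicit false

/-!
# Project TW, module CS1: a wall with a jump does not meet an active wall
-/

open Pool.Agent.Helper31.TW

namespace Pool.Agent.Helper70.TW

variable {n : ℕ}

private theorem dot_add (α x y : Fin n → ℤ) : dot α (x + y) = dot α x + dot α y := by
  unfold dot
  rw [← Finset.sum_add_distrib]
  refine Finset.sum_congr rfl fun i _ => ?_
  rw [Pi.add_apply, mul_add]

private theorem dot_smul (α x : Fin n → ℤ) (s : ℤ) : dot α (s • x) = s * dot α x := by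
  unfold dot
  rw [Finset.mul_sum]
  refine Finset.sum_congr rfl fun i _ => ?_
  rw [Pi.smul_apply, smul_eq_mul]
  ring

/-- at a generic point of a wall only the height counts -/
private theorem hgt {M : (Fin n → ℤ) → Prop} {𝓐 : Finset (Fin n → ℤ)}
    (e3 : ∀ x x' y y' : Fin n → ℤ, (∀ α ∈ 𝓐, Int.sign (dot α y) = Int.sign (dot α y')) →
      (∀ α ∈ 𝓐, dot α y = 0 → dot α x = dot α x') → (Ev M x y ↔ Ev M x' y'))
    {γ y : Fin n → ℤ} (hG : Gen 𝓐 γ y) {x x' : Fin n → ℤ} (h : dot γ x = dot γ x') :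
    Ev M x y ↔ Ev M x' y := by
  refine e3 x x' y y (fun _ _ => rfl) ?_
  intro δ hδ h0
  by_cases hd : δ = γ
  · rw [hd]
    exact h
  · exact absurd h0 (hG.2.2 δ hδ hd)

/-- a sign-adapted vector -/
private theorem ch_u {α u0 w : Fin n → ℤ} (β : Fin n → ℤ) (h0 : dot β u0 = 1) (hw : dot β w = 0)
    (hα : dot α w ≠ 0) (e : ℤ) (he : e * e = 1) :
    ∃ u : Fin n → ℤ, dot β u = 1 ∧ 1 ≤ e * dot α u := by
  refine ⟨u0 + (e * dot α w * (|dot α u0| + 1)) • w, ?_, ?_⟩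
  · rw [dot_add, dot_smul, h0, hw, mul_zero, add_zero]
  · rw [dot_add, dot_smul]
    have h1 : e * (dot α u0 + e * dot α w * (|dot α u0| + 1) * dot α w) =
        e * dot α u0 + (e * e) * ((dot α w * dot α w) * (|dot α u0| + 1)) := by ring
    rw [h1, he, one_mul]
    have h2 : 1 ≤ dot α w * dot α w := by
      have : 0 < dot α w * dot α w := by
        rcases lt_or_gt_of_ne hα with h | h
        · exact mul_pos_of_neg_of_neg h h
        · exact mul_pos h h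
      omega
    have h3 : |dot α u0| + 1 ≤ (dot α w * dot α w) * (|dot α u0| + 1) := by
      have := mul_le_mul_of_nonneg_right h2 (show 0 ≤ |dot α u0| + 1 by positivity)
      linarith
    have h4 : -|dot α u0| ≤ e * dot α u0 := by
      have h5 : |e * dot α u0| = |dot α u0| := by
        rw [abs_mul]
        have : |e| = 1 := by
          have h6 : |e| * |e| = 1 := by rw [← abs_mul, he, abs_one]
          have h7 := abs_nonneg e
          nlinarith
        rw [this, one_mul]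
      rw [← h5]
      exact neg_abs_le _
    linarith

/-- **CS1** -/
theorem hCS1 (hEV1 : StEV1) (hEV2 : StEV2) (hCHO : StCHO) (hACT : StACT) (hGNR : StGNR) :
    StCS1 := by
  intro n M 𝓐 K hC α hα β hβ hne x y0 hy0 hαy hβy hJ hA
  obtain ⟨-, -, e3⟩ := hEV1 n M 𝓐 K hC.dep
  obtain ⟨-, lim⟩ := hEV2 n M 𝓐 K hC.dep
  obtain ⟨-, -, a3, -, a5, -⟩ := hACT n M 𝓐 K hC α hα
  obtain ⟨b1, -, -, -, -, -⟩ := hACT n M 𝓐 K hC β hβ
  obtain ⟨w1, -, -, N0, hN0⟩ := hGNR n 𝓐 hC.nrm β hβ y0 hy0 hβy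
  have hGβ := hN0 (N0 : ℤ) le_rfl
  set yβ : Fin n → ℤ := (N0 : ℤ) • y0 + w1 with hyβ
  clear_value yβ
  have hact := a5 hJ
  obtain ⟨yα, v, hGα, hαv, hjmp⟩ := hJ
  -- values at `y0` and at `yα`
  have hy0α : ∀ x' : Fin n → ℤ, (Ev M x' y0 ↔ Ev M x' yα) :=
    fun x' => a3 x' yα y0 (hact x') hGα hy0 hαy
  -- the claim
  have claim : ∀ u : Fin n → ℤ, dot β u = 1 → ∃ G : ℕ, 1 ≤ G ∧ ∀ i : ℤ,
      (Ev M (x + ((G : ℤ) * i) • u) yα ↔ Ev M (x + ((G : ℤ) * i) • u) yβ) := by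
    intro u hu
    obtain ⟨G, hG1, hG⟩ := hCHO n M 𝓐 K hC β hβ yβ y0 u x hGβ hy0 hβy hu
    refine ⟨G, hG1, fun i => ?_⟩
    rw [← hy0α]
    refine hG ((G : ℤ) * i) ?_
    intro g hg1 hgG
    by_contra hcon
    push Not at hcon
    obtain ⟨c, hc⟩ := hgG
    have hc' : (G : ℤ) = (g : ℤ) * (c : ℤ) := by exact_mod_cast hc
    have h1 : Ev M x yβ ↔ Ev M (x + ((G : ℤ) * i) • u) yβ := by
      have h2 := hcon (-(c : ℤ) * i)
      have h3 : x + ((G : ℤ) * i) • u + (-(c : ℤ) * i * (g : ℤ)) • u = x := by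
        rw [add_assoc, ← add_smul, hc']
        have : (g : ℤ) * (c : ℤ) * i + -(c : ℤ) * i * (g : ℤ) = 0 := by ring
        rw [this, zero_smul, add_zero]
      rw [h3] at h2
      exact h2
    have h2 : ∀ s : ℤ, (Ev M (x + (s * (g : ℤ)) • u) yβ ↔ Ev M x yβ) := by
      intro s
      have h3 := hcon (s - (c : ℤ) * i)
      have h4 : x + ((G : ℤ) * i) • u + ((s - (c : ℤ) * i) * (g : ℤ)) • u =
          x + (s * (g : ℤ)) • u := by
        rw [add_assoc, ← add_smul, hc']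
        congr 2
        ring
      rw [h4] at h3
      exact h3.trans h1.symm
    obtain ⟨s1, hs1⟩ := lim x yβ u
    obtain ⟨s2, hs2⟩ := lim x yβ (-u)
    obtain ⟨s, hs, hns⟩ := b1 x yβ u hA hGβ hu (max s1 s2)
    apply hns
    have hg0 : (1 : ℤ) ≤ (g : ℤ) := by exact_mod_cast hg1
    have hm1 : (s1 : ℤ) ≤ ((max s1 s2 : ℕ) : ℤ) := by exact_mod_cast le_max_left s1 s2
    have hm2 : (s2 : ℤ) ≤ ((max s1 s2 : ℕ) : ℤ) := by exact_mod_cast le_max_right s1 s2
    rcases le_total 0 s with h | h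
    · rw [abs_of_nonneg h] at hs
      have h5 : (s1 : ℤ) ≤ s := le_trans hm1 hs
      have h6 : (s1 : ℤ) ≤ s * (g : ℤ) := by nlinarith
      exact (hs1 s (s * (g : ℤ)) h5 h6).trans (h2 s)
    · rw [abs_of_nonpos h] at hs
      have h5 : (s2 : ℤ) ≤ -s := le_trans hm2 hs
      have h6 : (s2 : ℤ) ≤ -s * (g : ℤ) := by nlinarith
      have h7 := hs2 (-s) (-s * (g : ℤ)) h5 h6
      have h8 : x + (-s) • (-u) = x + s • u := by rw [neg_smul_neg]
      have h9 : x + (-s * (g : ℤ)) • (-u) = x + (s * (g : ℤ)) • u := by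
        rw [neg_mul, neg_smul_neg]
      rw [h8, h9] at h7
      exact h7.trans (h2 s)
  -- the two vectors
  obtain ⟨u0, hu0⟩ := hC.nrm.1 β hβ
  obtain ⟨w, hwβ, hwα⟩ := hC.nrm.2 β hβ α hα (Ne.symm hne)
  obtain ⟨up, hup, hup'⟩ := ch_u β hu0 hwβ hwα 1 (by norm_num)
  obtain ⟨um, hum, hum'⟩ := ch_u β hu0 hwβ hwα (-1) (by norm_num)
  obtain ⟨Gp, hGp1, hGp⟩ := claim up hup
  obtain ⟨Gm, hGm1, hGm⟩ := claim um hum
  -- the limits of the pattern of `α`
  obtain ⟨t1, ht1⟩ := lim 0 yα v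
  obtain ⟨t2, ht2⟩ := lim 0 yα (-v)
  obtain ⟨s, hs, hns⟩ := hjmp (max t1 t2)
  have hm1 : (t1 : ℤ) ≤ ((max t1 t2 : ℕ) : ℤ) := by exact_mod_cast le_max_left t1 t2
  have hm2 : (t2 : ℤ) ≤ ((max t1 t2 : ℕ) : ℤ) := by exact_mod_cast le_max_right t1 t2
  apply hns
  -- a large `j`
  set T : ℤ := (t1 : ℤ) + (t2 : ℤ) + |dot α x| with hT
  have hT0 : 0 ≤ T := by positivity
  set j : ℤ := (Gp : ℤ) * (Gm : ℤ) * T with hj
  have hGG : (1 : ℤ) ≤ (Gp : ℤ) * (Gm : ℤ) := by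
    have h1 : (1 : ℤ) ≤ (Gp : ℤ) := by exact_mod_cast hGp1
    have h2 : (1 : ℤ) ≤ (Gm : ℤ) := by exact_mod_cast hGm1
    nlinarith
  have hjT : T ≤ j := by
    rw [hj]
    nlinarith
  have k1 : Ev M (x + j • up) yα ↔ Ev M (x + j • up) yβ := by
    have := hGp ((Gm : ℤ) * T)
    rwa [← mul_assoc, ← hj] at this
  have k2 : Ev M (x + j • um) yα ↔ Ev M (x + j • um) yβ := by
    have := hGm ((Gp : ℤ) * T)
    rwa [← mul_assoc, mul_comm (Gm : ℤ) (Gp : ℤ), ← hj] at this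
  have k3 : Ev M (x + j • up) yβ ↔ Ev M (x + j • um) yβ :=
    hgt e3 hGβ (by rw [dot_add, dot_add, dot_smul, dot_smul, hup, hum])
  have habs := abs_nonneg (dot α x)
  have hle := neg_abs_le (dot α x)
  have hle' := le_abs_self (dot α x)
  have k4 : Ev M (x + j • up) yα ↔ Ev M (s • v) yα := by
    have h1 : (t1 : ℤ) ≤ dot α (x + j • up) := by
      rw [dot_add, dot_smul]
      have : j * 1 ≤ j * dot α up := mul_le_mul_of_nonneg_left (by linarith) (by linarith)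
      linarith
    have h2 : Ev M (x + j • up) yα ↔ Ev M ((0 : Fin n → ℤ) + (dot α (x + j • up)) • v) yα :=
      hgt e3 hGα (by rw [zero_add, dot_smul, hαv, mul_one])
    have h3 := ht1 (dot α (x + j • up)) s h1 (le_trans hm1 hs)
    exact h2.trans (h3.trans (by rw [zero_add]))
  have k5 : Ev M (x + j • um) yα ↔ Ev M (-(s • v)) yα := by
    have h1 : (t2 : ℤ) ≤ -dot α (x + j • um) := by
      rw [dot_add, dot_smul]
      have : j * 1 ≤ j * (-1 * dot α um) := mul_le_mul_of_nonneg_left hum' (by linarith)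
      linarith
    have h2 : Ev M (x + j • um) yα ↔ Ev M ((0 : Fin n → ℤ) + (-dot α (x + j • um)) • (-v)) yα :=
      hgt e3 hGα (by rw [zero_add, neg_smul_neg, dot_smul, hαv, mul_one])
    have h3 := ht2 (-dot α (x + j • um)) s h1 (le_trans hm2 hs)
    exact h2.trans (h3.trans (by rw [zero_add, smul_neg]))
  exact k4.symm.trans (k1.trans (k3.trans (k2.symm.trans k5)))

end Pool.Agent.Helper70.TW
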