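import Pool.Agent.Helper31.TW.St2

set_option autoImplicit false

/-!
# Project TW, module SEQ: common subsequences of constant or monotone type
-/

open Pool.Agent.Helper31.TW

namespace Pool.Agent.Helper70.TW

/-- the three types of sequences -/
private def Typ (h : ℕ → ℤ) : Prop :=
  (∀ k, h k = h 0) ∨ (∀ k, 0 < h k ∧ h k < h (k + 1)) ∨ ∀ k, h k < 0 ∧ h (k + 1) < h k

private theorem typ_sub {h : ℕ → ℤ} (ht : Typ h) {g : ℕ → ℕ} (hg : StrictMono g) :
    Typ (fun k => h (g k)) := by
  rcases ht with ht | ht | ht
  · left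
    intro k
    change h (g k) = h (g 0)
    rw [ht (g k), ht (g 0)]
  · right; left
    have hm : StrictMono h := strictMono_nat_of_lt_succ fun k => (ht k).2
    exact fun k => ⟨(ht (g k)).1, hm (hg (Nat.lt_succ_self k))⟩
  · right; right
    have hm : StrictAnti h := strictAnti_nat_of_succ_lt fun k => (ht k).2
    exact fun k => ⟨(ht (g k)).1, hm (hg (Nat.lt_succ_self k))⟩

/-- a strictly increasing sequence of integers is positive from some point on -/
private theorem pos_of_inc {h : ℕ → ℤ} (hm : ∀ m n : ℕ, m < n → h m < h n) :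
    ∃ N : ℕ, ∀ k, 0 < h (N + k) := by
  have h1 : ∀ k : ℕ, h 0 + k ≤ h k := by
    intro k
    induction k with
    | zero => simp
    | succ k ih =>
      have := hm k (k + 1) (Nat.lt_succ_self k)
      push_cast
      omega
  refine ⟨(1 - h 0).toNat, fun k => ?_⟩
  have h2 := h1 ((1 - h 0).toNat + k)
  have h3 := Int.self_le_toNat (1 - h 0)
  push_cast at h2
  omega

private theorem one (h : ℕ → ℤ) : ∃ g : ℕ → ℕ, StrictMono g ∧ Typ (fun k => h (g k)) := by
  obtain ⟨g, hg⟩ := exists_increasing_or_nonincreasing_subseq (fun a b : ℤ => a < b) h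
  rcases hg with hg | hg
  · obtain ⟨N, hN⟩ := pos_of_inc (h := fun k => h (g k)) hg
    refine ⟨fun k => g (N + k), fun a b hab => g.strictMono (by omega), ?_⟩
    right; left
    exact fun k => ⟨hN k, hg _ _ (by omega)⟩
  · obtain ⟨g', hg'⟩ := exists_increasing_or_nonincreasing_subseq (fun a b : ℤ => b < a)
      (fun k => h (g k))
    rcases hg' with hg' | hg'
    · obtain ⟨N, hN⟩ := pos_of_inc (h := fun k => - h (g (g' k))) (by
        intro m n hmn
        have := hg' m n hmn
        change - h (g (g' m)) < - h (g (g' n))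
        have h2 : h (g (g' n)) < h (g (g' m)) := this
        omega)
      refine ⟨fun k => g (g' (N + k)), fun a b hab => g.strictMono (g'.strictMono (by omega)), ?_⟩
      right; right
      intro k
      refine ⟨?_, hg' _ _ (by omega)⟩
      have h3 := hN k
      change h (g (g' (N + k))) < 0
      have h4 : 0 < - h (g (g' (N + k))) := h3
      omega
    · refine ⟨fun k => g (g' k), fun a b hab => g.strictMono (g'.strictMono hab), ?_⟩
      left
      intro k
      change h (g (g' k)) = h (g (g' 0))
      rcases Nat.eq_zero_or_pos k with hk | hk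
      · rw [hk]
      · have h1 : ¬ h (g (g' k)) < h (g (g' 0)) := hg' 0 k hk
        have h2 : ¬ h (g (g' 0)) < h (g (g' k)) := hg (g' 0) (g' k) (g'.strictMono hk)
        omega

/-- **SEQ** -/
theorem hSEQ : StSEQ := by
  classical
  intro J _ f
  have key : ∀ s : Finset J, ∃ g : ℕ → ℕ, StrictMono g ∧ ∀ j ∈ s, Typ (fun k => f (g k) j) := by
    intro s
    induction s using Finset.induction_on with
    | empty => exact ⟨id, strictMono_id, fun j hj => absurd hj (Finset.notMem_empty j)⟩
    | insert a s ha ih =>
      obtain ⟨g, hg, hs⟩ := ih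
      obtain ⟨g', hg', ht⟩ := one (fun k => f (g k) a)
      refine ⟨fun k => g (g' k), fun x y hxy => hg (hg' hxy), ?_⟩
      intro j hj
      rcases Finset.mem_insert.1 hj with h | h
      · rw [h]
        exact ht
      · exact typ_sub (hs j h) hg'
  obtain ⟨g, hg, h⟩ := key Finset.univ
  exact ⟨g, hg, fun j => h j (Finset.mem_univ j)⟩

end Pool.Agent.Helper70.TW
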